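import Mathlib

set_option autoImplicit false

/-!
# The expanded clique with bounded matching number: the case `ℓ = r`, `s = C(r,2)`

For `ℓ = r ≥ 3` and `s = C(r,2)` the conjectured value `s · t_{r-1}(n-s, ℓ-1)` of
`ex_r(n, {H_{ℓ+1}^r, M_{s+1}^r})` is too small for every `n ≥ s`: one can add to the conjectured
extremal `r`-graph an edge contained in its `s`-element part `V₀`.
-/

namespace Pool.Agent.Results.MP_f4e9fb_co.BoundaryCase

open Finset

/-- `E` has a subhypergraph isomorphic to `F`. -/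
def Contains {W V : Type} (F : Finset (Finset W)) (E : Finset (Finset V)) : Prop :=
  ∃ φ : W ↪ V, ∀ e ∈ F, e.map φ ∈ E

/-- The pairs of vertices of `K_{ℓ+1}`. -/
abbrev Pr (ℓ : ℕ) : Type := {p : Fin (ℓ + 1) × Fin (ℓ + 1) // p.1 < p.2}

/-- Vertices of `H_{ℓ+1}^r`: the `ℓ + 1` vertices of `K_{ℓ+1}` and `r - 2` new vertices for every
edge of `K_{ℓ+1}`. -/
abbrev Vx (ℓ r : ℕ) : Type := Fin (ℓ + 1) ⊕ (Pr ℓ × Fin (r - 2))

/-- The edge of `H_{ℓ+1}^r` that comes from the edge `p` of `K_{ℓ+1}`. -/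
def cliqueEdge (ℓ r : ℕ) (p : Pr ℓ) : Finset (Vx ℓ r) :=
  {Sum.inl p.1.1, Sum.inl p.1.2} ∪ univ.image (fun k : Fin (r - 2) => Sum.inr (p, k))

/-- The expanded clique `H_{ℓ+1}^r`. -/
def expandedClique (ℓ r : ℕ) : Finset (Finset (Vx ℓ r)) := univ.image (cliqueEdge ℓ r)

/-- The matching `M_m^r` of `m` pairwise disjoint `r`-sets. -/
def matchingGraph (m r : ℕ) : Finset (Finset (Fin m × Fin r)) :=
  univ.image (fun i : Fin m => univ.image (fun k : Fin r => (i, k)))

/-- `ex_r(n, {H_{ℓ+1}^r, M_{s+1}^r})`. -/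
noncomputable def ex (ℓ r s n : ℕ) : ℕ :=
  sSup {m : ℕ | ∃ E : Finset (Finset (Fin n)), (∀ e ∈ E, e.card = r) ∧
    ¬ Contains (expandedClique ℓ r) E ∧ ¬ Contains (matchingGraph (s + 1) r) E ∧ E.card = m}

/-- The generalized Turán graph `T_k(m,q)`: the `q` parts are the residue classes modulo `q`, and
the edges are the `k`-sets that meet each part in at most one vertex. -/
def turanGraph (k m q : ℕ) : Finset (Finset (Fin m)) :=
  (powersetCard k univ).filter (fun S => ∀ x ∈ S, ∀ y ∈ S, x.val % q = y.val % q → x = y)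

section construction

variable (r s m : ℕ)

/-- Vertices: `V₀ = Fin s`, `U = Fin m`. -/
abbrev W (s m : ℕ) : Type := Fin s ⊕ Fin m

/-- The edge `{x} ∪ S`. -/
def mkEdge (t : Fin s × Finset (Fin m)) : Finset (W s m) :=
  insert (Sum.inl t.1) (t.2.map ⟨Sum.inr, Sum.inr_injective⟩)

/-- The conjectured extremal graph. -/
def G0 : Finset (Finset (W s m)) :=
  ((univ : Finset (Fin s)) ×ˢ turanGraph (r - 1) m (r - 1)).image (mkEdge s m)

/-- The additional edge inside `V₀`. -/
def e0 : Finset (W s m) :=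
  ((univ : Finset (Fin s)).filter (fun i => i.val < r)).map ⟨Sum.inl, Sum.inl_injective⟩

/-- The counterexample. -/
def G1 : Finset (Finset (W s m)) := insert (e0 r s m) (G0 r s m)

variable {r s m}

theorem mkEdge_inj : Function.Injective (mkEdge s m) := by
  rintro ⟨x, S⟩ ⟨y, T⟩ h
  have hx : (Sum.inl x : W s m) ∈ mkEdge s m (y, T) := by
    rw [← h]; simp [mkEdge]
  have hxy : x = y := by simpa [mkEdge] using hx
  have hS : S = T := by
    ext u
    have h1 : (Sum.inr u : W s m) ∈ mkEdge s m (x, S) ↔ (Sum.inr u : W s m) ∈ mkEdge s m (y, T) := by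
      rw [h]
    simpa [mkEdge] using h1
  rw [hxy, hS]

theorem card_G0 : (G0 r s m).card = s * (turanGraph (r - 1) m (r - 1)).card := by
  rw [G0, card_image_of_injective _ mkEdge_inj, card_product, card_univ, Fintype.card_fin]

theorem card_e0 (hrs : r ≤ s) : (e0 r s m).card = r := by
  rw [e0, card_map]
  have : (univ : Finset (Fin s)).filter (fun i => i.val < r) =
      (univ : Finset (Fin r)).map (Fin.castLEEmb hrs) := by
    ext i
    simp only [mem_filter, mem_univ, true_and, mem_map]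
    constructor
    · intro hi
      exact ⟨⟨i.val, hi⟩, by ext; simp⟩
    · rintro ⟨j, rfl⟩
      simp
  rw [this, card_map, card_univ, Fintype.card_fin]

/-- Facts on members of `G0`. -/
theorem G0_inl {e : Finset (W s m)} (he : e ∈ G0 r s m) {x y : Fin s}
    (hx : Sum.inl x ∈ e) (hy : Sum.inl y ∈ e) : x = y := by
  simp only [G0, mem_image, mem_product, mem_univ, true_and, Prod.exists] at he
  obtain ⟨z, S, _, rfl⟩ := he
  simp [mkEdge] at hx hy
  rw [hx, hy]

theorem G0_exists {e : Finset (W s m)} (he : e ∈ G0 r s m) : ∃ x : Fin s, Sum.inl x ∈ e := by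
  simp only [G0, mem_image, mem_product, mem_univ, true_and, Prod.exists] at he
  obtain ⟨z, S, _, rfl⟩ := he
  exact ⟨z, by simp [mkEdge]⟩

theorem G0_inr {e : Finset (W s m)} (he : e ∈ G0 r s m) {x y : Fin m}
    (hx : Sum.inr x ∈ e) (hy : Sum.inr y ∈ e) (h : x.val % (r - 1) = y.val % (r - 1)) : x = y := by
  simp only [G0, mem_image, mem_product, mem_univ, true_and, Prod.exists] at he
  obtain ⟨z, S, hS, rfl⟩ := he
  simp only [turanGraph, mem_filter] at hS
  simp [mkEdge] at hx hy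
  exact hS.2 x hx y hy h

theorem G0_card {e : Finset (W s m)} (hr : 1 ≤ r) (he : e ∈ G0 r s m) : e.card = r := by
  simp only [G0, mem_image, mem_product, mem_univ, true_and, Prod.exists] at he
  obtain ⟨z, S, hS, rfl⟩ := he
  simp only [turanGraph, mem_filter, mem_powersetCard] at hS
  rw [mkEdge, card_insert_of_notMem (by simp), card_map, hS.1.2]
  omega

theorem e0_notMem (hr : 3 ≤ r) (hrs : r ≤ s) : e0 r s m ∉ G0 r s m := by
  intro h
  have h0 : (Sum.inl ⟨0, by omega⟩ : W s m) ∈ e0 r s m := by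
    simp only [e0, mem_map, mem_filter, mem_univ, true_and, Function.Embedding.coeFn_mk]
    exact ⟨⟨0, by omega⟩, by simp; omega, rfl⟩
  have h1 : (Sum.inl ⟨1, by omega⟩ : W s m) ∈ e0 r s m := by
    simp only [e0, mem_map, mem_filter, mem_univ, true_and, Function.Embedding.coeFn_mk]
    exact ⟨⟨1, by omega⟩, by simp; omega, rfl⟩
  have := G0_inl h h0 h1
  simp at this

theorem card_G1 (hr : 3 ≤ r) (hrs : r ≤ s) :
    (G1 r s m).card = s * (turanGraph (r - 1) m (r - 1)).card + 1 := by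
  rw [G1, card_insert_of_notMem (e0_notMem hr hrs), card_G0]

theorem G1_card (hr : 3 ≤ r) (hrs : r ≤ s) : ∀ e ∈ G1 r s m, e.card = r := by
  intro e he
  rcases mem_insert.1 he with rfl | he
  · exact card_e0 hrs
  · exact G0_card (by omega) he

theorem G1_exists (hr : 3 ≤ r) (hrs : r ≤ s) {e : Finset (W s m)} (he : e ∈ G1 r s m) :
    ∃ x : Fin s, Sum.inl x ∈ e := by
  rcases mem_insert.1 he with rfl | he
  · refine ⟨⟨0, by omega⟩, ?_⟩
    simp only [e0, mem_map, mem_filter, mem_univ, true_and, Function.Embedding.coeFn_mk]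
    exact ⟨⟨0, by omega⟩, by simp; omega, rfl⟩
  · exact G0_exists he

/-- The matching number is at most `s`. -/
theorem no_matching (hr : 3 ≤ r) (hrs : r ≤ s) : ¬ Contains (matchingGraph (s + 1) r) (G1 r s m) := by
  rintro ⟨φ, hφ⟩
  have h : ∀ i : Fin (s + 1), ∃ x : Fin s, ∃ k : Fin r, φ (i, k) = Sum.inl x := by
    intro i
    obtain ⟨x, hx⟩ := G1_exists hr hrs (hφ (univ.image (fun k : Fin r => (i, k)))
      (mem_image.2 ⟨i, mem_univ _, rfl⟩))
    simp only [mem_map, mem_image, mem_univ, true_and] at hx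
    obtain ⟨_, ⟨k, rfl⟩, hk⟩ := hx
    exact ⟨x, k, hk⟩
  choose f g hfg using h
  have hinj : Function.Injective f := by
    intro i j hij
    have h1 : φ (i, g i) = φ (j, g j) := by rw [hfg, hfg, hij]
    exact (Prod.ext_iff.1 (φ.injective h1)).1
  have := Fintype.card_le_of_injective f hinj
  simp at this

/-- The graph contains no expanded clique when `ℓ = r` and `s ≤ C(r,2)`. -/
theorem no_clique (hr : 3 ≤ r) (hrs : r ≤ s) (hs : s ≤ r.choose 2) :
    ¬ Contains (expandedClique r r) (G1 r s m) := by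
  rintro ⟨φ, hφ⟩
  -- the edges
  have hedge : ∀ p : Pr r, (cliqueEdge r r p).map φ ∈ G1 r s m := fun p =>
    hφ _ (mem_image.2 ⟨p, mem_univ _, rfl⟩)
  -- membership in an edge
  have hmem1 : ∀ p : Pr r, φ (Sum.inl p.1.1) ∈ (cliqueEdge r r p).map φ := by
    intro p; rw [mem_map' φ]; simp [cliqueEdge]
  have hmem2 : ∀ p : Pr r, φ (Sum.inl p.1.2) ∈ (cliqueEdge r r p).map φ := by
    intro p; rw [mem_map' φ]; simp [cliqueEdge]
  have hnot : ∀ (p : Pr r) (a : Fin (r + 1)), a ≠ p.1.1 → a ≠ p.1.2 →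
      φ (Sum.inl a) ∉ (cliqueEdge r r p).map φ := by
    intro p a h1 h2
    rw [mem_map' φ]; simp [cliqueEdge, h1, h2]
  have hdisj : ∀ (p q : Pr r) (k : Fin (r - 2)), p ≠ q →
      φ (Sum.inr (p, k)) ∉ (cliqueEdge r r q).map φ := by
    intro p q k h1
    rw [mem_map' φ]
    simp [cliqueEdge, Ne.symm h1]
  classical
  -- core vertices in `V₀`
  let A : Finset (Fin (r + 1)) := univ.filter (fun a => ∃ x, φ (Sum.inl a) = Sum.inl x)
  have hA : ∀ a, a ∈ A ↔ ∃ x, φ (Sum.inl a) = Sum.inl x := by intro a; simp [A]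
  have hAc : ∀ a, a ∉ A → ∃ x, φ (Sum.inl a) = Sum.inr x := by
    intro a ha
    rcases h : φ (Sum.inl a) with x | x
    · exact absurd ((hA a).2 ⟨x, h⟩) ha
    · exact ⟨x, rfl⟩
  -- an edge with two core vertices in `V₀` is `e0`
  have he0 : ∀ p : Pr r, p.1.1 ∈ A → p.1.2 ∈ A → (cliqueEdge r r p).map φ = e0 r s m := by
    intro p h1 h2
    rcases mem_insert.1 (hedge p) with h | h
    · exact h
    · exfalso
      obtain ⟨x, hx⟩ := (hA _).1 h1
      obtain ⟨y, hy⟩ := (hA _).1 h2
      have h3 := G0_inl h (hx ▸ hmem1 p) (hy ▸ hmem2 p)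
      rw [h3, ← hy] at hx
      have := Sum.inl_injective (φ.injective hx)
      exact absurd this (ne_of_lt p.2)
  -- an edge with a vertex in `U` is in `G0`
  have hG0 : ∀ p : Pr r, (p.1.1 ∉ A ∨ p.1.2 ∉ A) → (cliqueEdge r r p).map φ ∈ G0 r s m := by
    intro p h
    rcases mem_insert.1 (hedge p) with h1 | h1
    · exfalso
      rcases h with h | h
      · obtain ⟨x, hx⟩ := hAc _ h
        have := hmem1 p
        rw [h1, hx] at this
        simp [e0] at this
      · obtain ⟨x, hx⟩ := hAc _ h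
        have := hmem2 p
        rw [h1, hx] at this
        simp [e0] at this
    · exact h1
  -- the part outside `A` has at most `r - 1` members
  have hres : ∀ a b, a ∉ A → b ∉ A → a ≠ b → ∀ x y, φ (Sum.inl a) = Sum.inr x →
      φ (Sum.inl b) = Sum.inr y → x.val % (r - 1) ≠ y.val % (r - 1) := by
    intro a b ha hb hab x y hx hy hxy
    rcases lt_or_gt_of_ne hab with h | h
    · have h1 := G0_inr (hG0 ⟨(a, b), h⟩ (Or.inl ha)) (hx ▸ hmem1 ⟨(a, b), h⟩)
        (hy ▸ hmem2 ⟨(a, b), h⟩) hxy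
      rw [h1, ← hy] at hx
      exact hab (Sum.inl_injective (φ.injective hx))
    · have h1 := G0_inr (hG0 ⟨(b, a), h⟩ (Or.inl hb)) (hy ▸ hmem1 ⟨(b, a), h⟩)
        (hx ▸ hmem2 ⟨(b, a), h⟩) hxy.symm
      rw [h1, ← hx] at hy
      exact hab (Sum.inl_injective (φ.injective hy)).symm
  have hAc_card : (univ \ A).card ≤ r - 1 := by
    have h1 : ∀ a : (univ \ A : Finset (Fin (r + 1))), ∃ x, φ (Sum.inl a.1) = Sum.inr x := by
      intro a
      exact hAc _ (mem_sdiff.1 a.2).2
    choose f hf using h1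
    have h2 : Function.Injective (fun a : (univ \ A : Finset (Fin (r + 1))) =>
        (⟨(f a).val % (r - 1), Nat.mod_lt _ (by omega)⟩ : Fin (r - 1))) := by
      intro a b hab
      by_contra hne
      have hne' : a.1 ≠ b.1 := fun h => hne (Subtype.ext h)
      exact hres a.1 b.1 (mem_sdiff.1 a.2).2 (mem_sdiff.1 b.2).2 hne' _ _ (hf a) (hf b)
        (by simpa using hab)
    have h3 := Fintype.card_le_of_injective _ h2
    rw [Fintype.card_coe, Fintype.card_fin] at h3
    exact h3
  have hA2 : 2 ≤ A.card := by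
    have := card_sdiff_add_card_eq_card (subset_univ A)
    rw [card_univ, Fintype.card_fin] at this
    omega
  -- `A` has at most two members
  have hA3 : A.card ≤ 2 := by
    by_contra hcon
    push Not at hcon
    obtain ⟨a, b, c, ha, hb, hc, hab, hac, hbc⟩ := two_lt_card_iff.1 hcon
    -- `e0` contains all core vertices in `A`
    have hin : ∀ x y z, x ∈ A → y ∈ A → z ∈ A → x ≠ y → x ≠ z → y ≠ z → False := by
      intro x y z hx hy hz hxy hxz hyz
      -- the edge of `x y` is `e0`, which does not contain `z`; the edge of `x z` is `e0`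
      have hxz' : φ (Sum.inl z) ∈ e0 r s m := by
        rcases lt_or_gt_of_ne hxz with h | h
        · rw [← he0 ⟨(x, z), h⟩ hx hz]; exact hmem2 ⟨(x, z), h⟩
        · rw [← he0 ⟨(z, x), h⟩ hz hx]; exact hmem1 ⟨(z, x), h⟩
      rcases lt_or_gt_of_ne hxy with h | h
      · rw [← he0 ⟨(x, y), h⟩ hx hy] at hxz'
        exact hnot ⟨(x, y), h⟩ z (Ne.symm hxz) (Ne.symm hyz) hxz'
      · rw [← he0 ⟨(y, x), h⟩ hy hx] at hxz'
        exact hnot ⟨(y, x), h⟩ z (Ne.symm hyz) (Ne.symm hxz) hxz'
    exact hin a b c ha hb hc hab hac hbc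
  have hAeq : A.card = 2 := le_antisymm hA3 hA2
  obtain ⟨a, b, hab, hAab⟩ := card_eq_two.1 hAeq
  -- wlog `a < b`
  obtain ⟨p0, hp0A1, hp0A2⟩ : ∃ p0 : Pr r, p0.1.1 ∈ A ∧ p0.1.2 ∈ A := by
    rcases lt_or_gt_of_ne hab with h | h
    · exact ⟨⟨(a, b), h⟩, by rw [hAab]; simp, by rw [hAab]; simp⟩
    · exact ⟨⟨(b, a), h⟩, by rw [hAab]; simp, by rw [hAab]; simp⟩
  have hp0 := he0 p0 hp0A1 hp0A2
  -- the pairs outside `A`
  let P : Finset (Pr r) := univ.filter (fun p => p.1.1 ∉ A ∧ p.1.2 ∉ A)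
  have hPcard : (r - 1).choose 2 ≤ P.card := by
    have hc : (univ \ A).card = r - 1 := by
      have := card_sdiff_add_card_eq_card (subset_univ A)
      rw [card_univ, Fintype.card_fin] at this
      omega
    rw [← hc, ← card_powersetCard 2 (univ \ A)]
    -- injection from 2-subsets
    have hsurj : powersetCard 2 (univ \ A) ⊆ P.image (fun p => ({p.1.1, p.1.2} : Finset (Fin (r+1)))) := by
      intro S hS
      rw [mem_powersetCard] at hS
      obtain ⟨x, y, hxy, rfl⟩ := card_eq_two.1 hS.2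
      have hx : x ∉ A := (mem_sdiff.1 (hS.1 (by simp))).2
      have hy : y ∉ A := (mem_sdiff.1 (hS.1 (by simp))).2
      rw [mem_image]
      rcases lt_or_gt_of_ne hxy with h | h
      · exact ⟨⟨(x, y), h⟩, by simp [P, hx, hy], rfl⟩
      · exact ⟨⟨(y, x), h⟩, by simp [P, hx, hy], by simp [pair_comm]⟩
    exact (card_le_card hsurj).trans card_image_le
  -- the vertices of `V₀` on the edges of these pairs
  have hy : ∀ p : Pr r, p ∈ P → ∃ x : Fin s, ∃ k : Fin (r - 2), φ (Sum.inr (p, k)) = Sum.inl x := by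
    intro p hp
    simp only [P, mem_filter, mem_univ, true_and] at hp
    obtain ⟨x, hx⟩ := G0_exists (hG0 p (Or.inl hp.1))
    simp only [mem_map, cliqueEdge, mem_union, mem_insert, mem_singleton, mem_image, mem_univ,
      true_and] at hx
    obtain ⟨v, hv, hvx⟩ := hx
    rcases hv with (rfl | rfl) | ⟨k, rfl⟩
    · exact absurd ((hA _).2 ⟨x, hvx⟩) hp.1
    · exact absurd ((hA _).2 ⟨x, hvx⟩) hp.2
    · exact ⟨x, k, hvx⟩
  -- an injection of `P` into the vertices of `V₀` outside `e0`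
  let Z : Finset (Fin s) := univ.filter (fun x => (Sum.inl x : W s m) ∉ e0 r s m)
  have hZ : Z.card = s - r := by
    have h1 : Z = univ \ (univ.filter (fun i : Fin s => i.val < r)) := by
      ext x; simp [Z, e0]
    have h2 : (univ.filter (fun i : Fin s => i.val < r)).card = r := by
      have := card_e0 (m := m) hrs
      rwa [e0, card_map] at this
    rw [h1, card_sdiff_of_subset (subset_univ _), card_univ, Fintype.card_fin, h2]
  have hPZ : P.card ≤ Z.card := by
    have hy' : ∀ p : Pr r, ∃ x : Fin s, p ∈ P → ∃ k : Fin (r - 2), φ (Sum.inr (p, k)) = Sum.inl x := by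
      intro p
      by_cases hp : p ∈ P
      · obtain ⟨x, k, h⟩ := hy p hp
        exact ⟨x, fun _ => ⟨k, h⟩⟩
      · exact ⟨⟨0, by omega⟩, fun h => absurd h hp⟩
    choose f hf using hy'
    refine card_le_card_of_injOn f ?_ ?_
    · intro p hp
      obtain ⟨k, hk⟩ := hf p hp
      have hne : p ≠ p0 := by
        rintro rfl
        have hp' : p ∈ P := hp
        simp only [P, mem_filter, mem_univ, true_and] at hp'
        exact hp'.1 hp0A1
      have := hdisj p p0 k hne
      rw [hp0, hk] at this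
      simp [Z, this]
    · intro p hp q hq hpq
      obtain ⟨k, hk⟩ := hf p hp
      obtain ⟨l, hl⟩ := hf q hq
      have hpq' : f p = f q := hpq
      rw [hpq', ← hl] at hk
      have := φ.injective hk
      simp only [Sum.inr.injEq, Prod.mk.injEq] at this
      exact this.1
  -- numbers
  have hfin : r.choose 2 = (r - 1).choose 2 + (r - 1) := by
    obtain ⟨k, rfl⟩ : ∃ k, r = k + 1 := ⟨r - 1, by omega⟩
    rw [Nat.choose_succ_succ' k 1]
    simp [Nat.add_comm]
  omega

end construction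

/-- Transport to `Fin n`. -/
theorem lower (r n : ℕ) (hr : 3 ≤ r) (hn : r.choose 2 ≤ n) :
    r.choose 2 * (turanGraph (r - 1) (n - r.choose 2) (r - 1)).card + 1 ≤
      ex r r (r.choose 2) n := by
  set s := r.choose 2 with hs
  have hrs : r ≤ s := by
    obtain ⟨k, rfl⟩ : ∃ k, r = k + 3 := ⟨r - 3, by omega⟩
    rw [hs, Nat.choose_two_right]
    have h1 : (k + 3 - 1) = k + 2 := by omega
    rw [h1, Nat.le_div_iff_mul_le (by norm_num)]
    nlinarith
  have hcard : Fintype.card (W s (n - s)) = n := by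
    simp only [Fintype.card_sum, Fintype.card_fin]
    omega
  let f : W s (n - s) ≃ Fin n := Fintype.equivFinOfCardEq hcard
  have key : ∀ {X : Type} (F : Finset (Finset X)), ¬ Contains F (G1 r s (n - s)) →
      ¬ Contains F ((G1 r s (n - s)).map (mapEmbedding f.toEmbedding).toEmbedding) := by
    rintro X F hF ⟨φ, hφ⟩
    apply hF
    refine ⟨φ.trans f.symm.toEmbedding, fun e he => ?_⟩
    have h1 := hφ e he
    rw [mem_map] at h1
    obtain ⟨e', he', h2⟩ := h1
    have h3 : e.map (φ.trans f.symm.toEmbedding) = e' := by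
      rw [← map_map, ← h2]
      simp only [RelEmbedding.coe_toEmbedding, mapEmbedding_apply, map_map]
      ext x
      simp
    rw [h3]
    exact he'
  apply le_csSup
  · refine ⟨Fintype.card (Finset (Fin n)), ?_⟩
    rintro _ ⟨E, _, _, _, rfl⟩
    exact card_le_univ E
  · refine ⟨(G1 r s (n - s)).map (mapEmbedding f.toEmbedding).toEmbedding, ?_,
      key _ (no_clique hr hrs hs.le), key _ (no_matching hr hrs), ?_⟩
    · intro e he
      rw [mem_map] at he
      obtain ⟨e', he', rfl⟩ := he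
      simp only [RelEmbedding.coe_toEmbedding, mapEmbedding_apply, card_map]
      exact G1_card hr hrs e' he'
    · rw [card_map, card_G1 hr hrs]

/-- **Main theorem.** For every `r ≥ 3` and every `n ≥ C(r,2)`, with `ℓ = r` and `s = C(r,2)`,
`ex_r(n, {H_{ℓ+1}^r, M_{s+1}^r}) ≥ s · t_{r-1}(n-s, ℓ-1) + 1`. Hence the conjectured formula
fails. -/
theorem result :
    (∀ r n : ℕ, 3 ≤ r → r.choose 2 ≤ n →
      r.choose 2 * (turanGraph (r - 1) (n - r.choose 2) (r - 1)).card + 1 ≤
        ex r r (r.choose 2) n) ∧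
    ¬ (∀ ℓ r s : ℕ, 3 ≤ r → r ≤ ℓ → ℓ.choose 2 ≤ s → ∃ N : ℕ, ∀ n : ℕ, N ≤ n →
      ex ℓ r s n = s * (turanGraph (r - 1) (n - s) (ℓ - 1)).card) := by
  refine ⟨lower, fun h => ?_⟩
  obtain ⟨N, hN⟩ := h 3 3 (Nat.choose 3 2) le_rfl le_rfl le_rfl
  have h1 := hN (max N (Nat.choose 3 2)) (le_max_left _ _)
  have h2 := lower 3 (max N (Nat.choose 3 2)) le_rfl (le_max_right _ _)
  omega

end Pool.Agent.Results.MP_f4e9fb_co.BoundaryCase
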